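import Pool.Agent.T9h35.NS.Final

/-!
# Nondeterministic circuits of exponential size for unsatisfiability

The coNP-complete language of unsatisfiable CNF formulas over `n` variables; the formula is given by
the list of its clauses among at most `2 ^ W` possible ones.  A nondeterministic circuit guesses a
witness `u ∈ U` and runs a circuit `D u`, which consists of AND gates, OR gates and further gates, for
example NOT gates, on the indicator bits of the clauses.

1. A property of ALL circuits that accept no satisfiable formula (that is, of a nondeterministic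
   circuit for a fixed witness).  There is a random decreasing chain of unsatisfiable formulas such
   that a circuit of size `2 ^ ((1 - 2 ε) (n - g))` accepts the last formula of a segment of `h` steps
   without a change of the values read by its further gates on the segment only with probability
   `2 ^ (- ε (n - g) h)`; this holds everywhere in the first `2 ^ g = 2 ^ W / poly(n)` steps.
2. Hence a nondeterministic circuit without NOT gates and of this size needs `ε (n - g) 2 ^ g` witness
   bits, and if it has `t` NOT gates and `m < ε (n - g) - 1` witness bits, then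
   `m + t > g - 2 = W - A log n - O(1)`.
3. One NOT gate and `W + 1` further witness bits (the number of the clauses of the formula) replace
   all NOT gates.
-/

set_option autoImplicit false

namespace Pool.Agent.Results.MP_a77cad_lc.ShortWitnesses

open Pool.Agent.T9h34 (Circuit)
open Pool.Agent.T9h36.SN (Clause Unsat indicator prob IsLevel levelProduct)
open Pool.Agent.T9h36.SQ (OnlyNots)

/-- For every `ε > 0` there is `A` such that for all `n`, `W ≤ n` and `g` with
`g + A (log₂ n + 1) ≤ W` there are a set `𝒞` of at most `2 ^ W` clauses of width at most `W` over `n`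
variables and a random decreasing chain `G ω 0 ⊇ G ω 1 ⊇ G ω 2 ⊇ ...` of unsatisfiable formulas
`G ω i ⊆ 𝒞` such that:

1. if a circuit `C` rejects every satisfiable formula `F ⊆ 𝒞` and `i + h ≤ 2 ^ g`, then the
   probability that `C` accepts `G ω (i + h)` and its further gates read the same values on
   `G ω i, G ω (i + 1), ..., G ω (i + h)` is at most
   `((size + numReads + 1) / 2 ^ ((1 - ε) (n - g))) ^ h`;
2. if `D u`, `u ∈ U`, are circuits such that a formula `F ⊆ 𝒞` is unsatisfiable if and only if some
   `D u` accepts it, `size + numReads + 1 ≤ N` for all of them, and either `D u` has at most `t`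
   further gates, all of them NOT gates, with `2 ^ t ≤ T + 1`, or its level product is at most `T + 1`
   for some levels of its gates, then `1 ≤ |U| ((N / 2 ^ ((1 - ε) (n - g))) ^ h + 2 h T / 2 ^ g)` for
   all `1 ≤ h ≤ 2 ^ g`;
3. for every circuit `C` with AND, OR and NOT gates and every `e` some circuit `C'` with at most one
   NOT gate and at most `2 size(C) + 10 (2 ^ W + 1) ^ 3` gates accepts exactly those formulas
   `F ⊆ 𝒞` with `e` clauses which `C` accepts, and no other formulas `F ⊆ 𝒞`. -/
theorem result : ∀ ε : ℝ, 0 < ε → ∃ A : ℕ, ∀ n W g : ℕ, W ≤ n →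
    g + A * (Nat.log 2 n + 1) ≤ W →
    ∃ 𝒞 : Finset (Clause n), 𝒞.card ≤ 2 ^ W ∧ (∀ c ∈ 𝒞, c.card ≤ W) ∧
      (∃ (Ω : Type) (_ : Fintype Ω) (_ : Nonempty Ω) (G : Ω → ℕ → Finset (Clause n)),
        (∀ ω i, G ω i ⊆ 𝒞 ∧ Unsat (G ω i) ∧ G ω (i + 1) ⊆ G ω i) ∧
        ∀ C : Circuit (Clause n), (∀ F ⊆ 𝒞, ¬ Unsat F → C.eval (indicator F) = false) →
          ∀ i h : ℕ, i + h ≤ 2 ^ g →
          prob (fun ω => C.eval (indicator (G ω (i + h))) = true ∧ ∀ j < h,
            C.reads (indicator (G ω (i + j))) = C.reads (indicator (G ω (i + j + 1)))) ≤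
          ((C.size + C.numReads + 1 : ℕ) / (2 : ℝ) ^ ((1 - ε) * ((n : ℝ) - g))) ^ h) ∧
      (∀ (U : Type) [Fintype U] (D : U → Circuit (Clause n)) (N T : ℕ),
        (∀ u, (D u).size + (D u).numReads + 1 ≤ N ∧
          ((OnlyNots (D u) ∧ 2 ^ (D u).numOther ≤ T + 1) ∨
            ∃ lev, IsLevel (D u) lev ∧ levelProduct (D u) lev ≤ T + 1)) →
        (∀ F ⊆ 𝒞, Unsat F ↔ ∃ u, (D u).eval (indicator F) = true) →
        ∀ h : ℕ, 1 ≤ h → h ≤ 2 ^ g →
          1 ≤ Fintype.card U *
            ((N / (2 : ℝ) ^ ((1 - ε) * ((n : ℝ) - g))) ^ h + 2 * h * T / 2 ^ g)) ∧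
      ∀ (C : Circuit (Clause n)) (e : ℕ), OnlyNots C →
        ∃ C' : Circuit (Clause n), OnlyNots C' ∧ C'.numOther ≤ 1 ∧
          C'.size ≤ 2 * C.size + 10 * (2 ^ W + 1) ^ 3 ∧
          ∀ F ⊆ 𝒞, (C'.eval (indicator F) = true ↔
            C.eval (indicator F) = true ∧ F.card = e) :=
  fun ε hε => Pool.Agent.T9h35.NS.final ε hε

end Pool.Agent.Results.MP_a77cad_lc.ShortWitnesses
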