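import Mathlib
import Pool.Agent.T9h20.Mach

/-!
# Nondeterministic non-uniform machines with small memory and monotone access to the input
-/

set_option autoImplicit false

namespace Pool.Agent.Results.MP_a77cad_lc.SmallMemory

open Pool.Agent.T9h20

/-- For every `ε > 0` there is a `K` such that for all `n, L ≥ 1` with `(n + L) ^ K ≤ 2 ^ n` and
every nondeterministic machine `R` with at most `2 ^ L` configurations (that is, `L` bits of
memory) and arbitrary advice, which has monotone access to its input, a CNF formula in `n`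
variables, finds at most `L` clauses of the input in each step, and accepts only unsatisfiable
formulas: some unsatisfiable formula `φ` with at most `(n + L) ^ K` clauses, all of width at most
`K log₂ (n + L)`, is not accepted by a run with fewer than `2 ^ ((1 - ε) n)` steps. -/
theorem result (ε : ℝ) (hε : 0 < ε) : ∃ K : ℕ, ∀ n L : ℕ, 1 ≤ n → 1 ≤ L →
    (n + L) ^ K ≤ 2 ^ n →
    ∀ R : NMachine n, Finite R.State → Nat.card R.State ≤ 2 ^ L → R.Sound L →
    ∃ φ : CNF n, Unsat φ ∧ φ.card ≤ (n + L) ^ K ∧ (∀ C ∈ φ, 2 ^ C.card ≤ (n + L) ^ K) ∧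
      ∀ T : ℕ, R.AcceptsIn L φ T → (2 : ℝ) ^ ((1 - ε) * n) ≤ T :=
  mach_main ε hε

end Pool.Agent.Results.MP_a77cad_lc.SmallMemory
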