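import Mathlib
import Pool.Agent.T9h47.SW.App

/-!
# Nondeterministic circuits for unsatisfiability must break the symmetry under negations

An instance is a set `φ` of clauses with at most `k` literals over `n` variables. A circuit gets one
input for each such clause `C`, which is `b₁` if `C` is in `φ` and `b₀` otherwise, and further
inputs for the witness. Its gates may compute arbitrary functions of the multisets of the values of
their children (with roles), with values in an arbitrary set `K`. The instance is accepted if the
circuit accepts it with some witness `w` in a finite set `W`. Nothing is assumed about the circuit or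
`W`. The answer does not change if variables are negated. Let `G` be a group of negations of
variables, that is, a subgroup of the group of all functions from variables to the field with two
elements.

The view of a gate is its value together with the multisets of the values of its children. Let
`N(C, W)` be the number of different functions `φ ↦ view of g on (f φ, w)` of sets of at most `m`
clauses, where `g` is a gate, `w` is in `W` and `f` is in `G`. It is at most `s |W| |G|` for all
circuits with `s` gates, and at most `s |W|` if the circuit is symmetric under `G` in the following
sense: every element of `G`, together with a permutation of the witness coordinates which preserves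
`W`, extends to an automorphism. (So the witness may describe something about each variable, and
negations may act on it.)

* Lower bound on average: for all `k` there is a random unsatisfiable instance with at most
  `m = O (log |G|)` clauses with the following property, where
  `p = 2 ^ (k + 2) * (6 log |G| + 3) ^ 4`. If a circuit accepts no satisfiable instance with at most
  `m` clauses with any witness in `W`, then with probability at least
  `1 - N(C, W) p / |G| ^ (1 - 2.9/k)` it accepts the random instance with no witness in `W`.
* Lower bound: `N(C, W) ≥ |G| ^ (1 - 2.9/k) / p` for all nondeterministic circuits which decide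
  unsatisfiability for instances with at most `m` clauses. In particular `s |W| ≥ |G| ^ (1 - 2.9/k) / p`
  for symmetric circuits.

Proof. Let `|G| = 2 ^ h`. The elements of `G` have arbitrary values on some set of `h` variables; only
variables in this set occur in the instances. They are the edges of a random `k`-regular multigraph
(configuration model) with about `2 h / k` vertices, and the instances say that the sum of the
variables at the vertex `v` is `c v`, in the field with two elements, with random negations from `G`.
There is no solution if the sum of all `c v` is odd. For a set `y` of vertices let `∂ y` be the set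
of edges between `y` and its complement. For a gate `g` and a witness `w` let `S` be the group of all
`f` in `G` which do not change the view of `g`, let `Z` be its restriction to the edges, and `W`
the space of all vectors orthogonal to `Z`. The group `G` is commutative, so `Z` is the same for all
images of the view, of which there are at least `|W|`; so the sum of `|W|` over all the different
spaces `W` is at most `N(C, W)`. Call a pair of sets of vertices `y`, `z` bad if `y`, `z` and the
complement of `y + z` contain at most half of the vertices. With high probability `∂ y` and `∂ z` are
both in some `W` for no bad pair. Then the function which is one for the sets `y` with more than half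
of the vertices and zero for the others is linear on the space of all `y` with `∂ y` in `W`; call `c`
good if it represents this linear function. The value of `g` at every good `c` is its value at
`c = 0`, by induction: by linear algebra, for every child `g'` of `g` some element of `S` moves `c`
to a right hand side which is good for `g'`, and the multisets of the values of the children do not
change under `S`, so they can be replaced by their sums over `S`, which are equal for `c` and for `0`.
So a certificate for an unsatisfiable instance gives one for a satisfiable instance.
-/

set_option autoImplicit false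

namespace Pool.Agent.Results.MP_a77cad_lc.SymmetryBreaking

open Pool.Agent.T9h47.SC Pool.Agent.T9h47.SE Pool.Agent.T9h47.SW

theorem result :
    -- all nondeterministic circuits, average case
    (∀ (k n : ℕ) (G : AddSubgroup (Fin n → ZMod 2)), 1 ≤ k → 2 ^ k ≤ Nat.card G →
      ∃ (Ω : Type) (_ : Fintype Ω) (_ : Nonempty Ω) (φ : Ω → Set (Cl n k)),
        (∀ ω, ¬ Satisfiable (φ ω) ∧ (φ ω).ncard ≤ 2 ^ (k + 1) * Nat.log 2 (Nat.card G)) ∧
        ∀ (K J : Type) (C : Circuit K (Cl n k ⊕ J)) (b₀ b₁ : K) (Acc : Set K) (W : Finset (J → K)),
          (∀ ψ : Set (Cl n k), ψ.ncard ≤ 2 ^ (k + 1) * Nat.log 2 (Nat.card G) → Satisfiable ψ →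
            ∀ w ∈ W, C.val (Sum.elim (inp b₀ b₁ ψ) w) C.out ∉ Acc) →
          (Nat.card {ω // ∃ w ∈ W, C.val (Sum.elim (inp b₀ b₁ (φ ω)) w) C.out ∈ Acc} : ℝ) ≤
            ((views G C b₀ b₁ W (2 ^ (k + 1) * Nat.log 2 (Nat.card G))).ncard : ℝ) *
              (2 ^ (k + 2) * (6 * (Nat.log 2 (Nat.card G) : ℝ) + 3) ^ 4) /
              ((Nat.card G : ℕ) : ℝ) ^ (1 - 29 / (10 * k) : ℝ) * Fintype.card Ω) ∧
    -- all nondeterministic circuits, worst case
    (∀ (k n : ℕ) (G : AddSubgroup (Fin n → ZMod 2)), 1 ≤ k → 2 ^ k ≤ Nat.card G →
      ∀ (K J : Type) (C : Circuit K (Cl n k ⊕ J)) (b₀ b₁ : K) (Acc : Set K) (W : Finset (J → K)),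
      (∀ ψ : Set (Cl n k), ψ.ncard ≤ 2 ^ (k + 1) * Nat.log 2 (Nat.card G) →
        ((∃ w ∈ W, C.val (Sum.elim (inp b₀ b₁ ψ) w) C.out ∈ Acc) ↔ ¬ Satisfiable ψ)) →
      ((Nat.card G : ℕ) : ℝ) ^ (1 - 29 / (10 * k) : ℝ) ≤
        ((views G C b₀ b₁ W (2 ^ (k + 1) * Nat.log 2 (Nat.card G))).ncard : ℝ) *
          (2 ^ (k + 2) * (6 * (Nat.log 2 (Nat.card G) : ℝ) + 3) ^ 4)) ∧
    -- the number of views
    (∀ (k n m : ℕ) (G : AddSubgroup (Fin n → ZMod 2)) (K J : Type)
      (C : Circuit K (Cl n k ⊕ J)) (b₀ b₁ : K) (W : Finset (J → K)),
      (views G C b₀ b₁ W m).ncard ≤ Nat.card G * (W.card * @Fintype.card C.Gate C.fin) ∧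
      (Symm C G W → (views G C b₀ b₁ W m).ncard ≤ W.card * @Fintype.card C.Gate C.fin)) :=
  ⟨fun k n G hk hG => cert_avg k n G hk hG,
    fun k n G hk hG K J C b₀ b₁ Acc W hD => cert_worst k n G hk hG K J C b₀ b₁ Acc W hD,
    fun _ _ m G _ _ C b₀ b₁ W => ⟨views_le G C b₀ b₁ W m, views_symm G C b₀ b₁ W m⟩⟩

end Pool.Agent.Results.MP_a77cad_lc.SymmetryBreaking
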