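import Pool.Agent.T9h35.CN.Final

/-!
# Certificates of the absence of cliques: witness length, negations, and the changes of the tests

The problem whether a graph `G` has no `k`-clique is coNP-complete (`k = n / 2`).  A nondeterministic
circuit for it, with witnesses `w`, is a family of circuits `C_w`: the witness `w` certifies `G` if
`C_w` rejects `G`.  It is sound if every `C_w` accepts all graphs with a `k`-clique, and complete if
every graph without `k`-clique is rejected by some `C_w`.  The dependence on `w` may be arbitrary.

The circuits are as in `AverageCaseClique`: gates of the first kind compute an arbitrary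
nondecreasing real function of at most `f` real numbers computed earlier; gates of the second kind
(any number of them) compute an arbitrary Boolean function of the answers to at most `d` threshold
tests; NOT gates are the case of one test.

Put `l = log s + log n + 1` and `z = log (l + f) + 1` (logarithms of base two, rounded down).  If
`K * l * z ^ 3 ≤ k` and `R = K * l * (l + f) * z ^ 5 ≤ n - k` then there are a number `M` with
`(n - k) ^ 2 ≤ R * M` and a random chain `G 0 ≤ G 1 ≤ ... ≤ G M` of graphs without `k`-clique such
that for EVERY circuit `C` whose size plus number of tests is at most `s` and that accepts all graphs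
with a `k`-clique:

1. the probability that `C` rejects `G (i + h)` and that the answers to the tests of its gates of the
   second kind are the same on `G i, G (i + 1), ..., G (i + h)` is at most `(3 / 4) ^ h`;
2. the sum of the probabilities that `C` rejects `G i`, `i ≤ M`, is at most `4 + 4 * E[X]`, where
   `X` is the number of steps at which the answers to the tests change; always `X ≤ d * (2 ^ t - 1)`
   if there are `t` gates of the second kind.

Conversely one gate of the second kind is enough:

3. for every circuit `A` and every number `e` there is a circuit `B` with ONE gate of the second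
   kind, with one test, of size at most `2 * |A| + 10 * n ^ 4`, which rejects exactly the graphs with
   `e` ordered pairs of adjacent vertices which `A` rejects.

Consequences for nondeterministic circuits with witnesses of `m` bits (`N = n * (n - 1) / 2` is the
length of the input, `k = n / 2`, circuits of polynomial size).
* Without NOT gates `m ≥ N / (log n) ^ (2 + o (1))` (by 1 with `h = M`).  Witnesses of `N` bits are
  enough: a larger graph `H` without `k`-clique, and the check that all edges of `G` are in `H`.
* With `t` NOT gates `m + t ≥ log N - (2 + o (1)) log log n` (by 2): a bit of the witness can replace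
  at most one NOT gate.
* If `m ≤ h / 3` then, for every `j ≥ h`, with probability almost 1 the inputs of the NOT gates
  change in the last `h` steps before `G j` for every witness that certifies `G j` (by 1).
* By 3 one NOT gate and `log (N + 1)` additional bits of the witness (the number of edges) replace
  any number of NOT gates.  So a superpolynomial lower bound for nondeterministic circuits of
  nondecreasing real gates of fan-in two and ONE NOT gate would show that coNP is not contained in
  NP/poly.

Method.  The chain is filled block by block with noise, as in `AverageCaseClique`.  If `C` accepts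
all graphs with a `k`-clique, then, for a graph `y` of the chain, the monotone detector circuit `D`
(the output is 1 or the answers to the tests are not those on `y`) accepts `y` with any word in the
next block, so it accepts `y` with noise in the next block with probability at least `1 / 4`: in
every step `C` accepts the next graph or its tests change with probability at least `1 / 4`, for
every past.  While the answers do not change the output is monotone.
-/

namespace Pool.Agent.Results.MP_a77cad_lc.WitnessLength

open Pool.Agent.T9h34 (graphInput)
open Pool.Agent.T9h35.RW (Circuit)
open Pool.Agent.VC34 (numTests changes answers)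

open Classical in
theorem result : (∃ K : ℕ, ∀ n k s f l z : ℕ,
    l = Nat.log 2 s + Nat.log 2 n + 1 → z = Nat.log 2 (l + f) + 1 → 2 ≤ k → k ≤ n →
    K * l * z ^ 3 ≤ k → K * l * (l + f) * z ^ 5 ≤ n - k →
    ∃ (M : ℕ) (Ω : Type) (_ : Fintype Ω) (ν : Ω → ℝ) (G : Ω → ℕ → SimpleGraph (Fin n)),
      (n - k) ^ 2 ≤ K * l * (l + f) * z ^ 5 * M ∧
      (∀ ω, 0 ≤ ν ω) ∧ ∑ ω, ν ω = 1 ∧ (∀ ω i, G ω i ≤ G ω (i + 1)) ∧
      (∀ ω i, ¬ ∃ S, (G ω i).IsNClique k S) ∧
      ∀ (d : ℕ) (C : Circuit (Fin n × Fin n)), C.FanIn f d → C.size + numTests C ≤ s →
        (∀ H : SimpleGraph (Fin n), (∃ S, H.IsNClique k S) → C.eval (graphInput H) = true) →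
        (∀ i h : ℕ, i + h ≤ M →
          ∑ ω with (C.eval (graphInput (G ω (i + h))) = false ∧ ∀ j < h,
            answers C (graphInput (G ω (i + j))) = answers C (graphInput (G ω (i + j + 1)))),
            ν ω ≤ (3 / 4) ^ h) ∧
        ∑ i ∈ Finset.range (M + 1), ∑ ω with C.eval (graphInput (G ω i)) = false, ν ω ≤
          4 + 4 * ∑ ω, ν ω * changes C M (G ω) ∧
        ∀ ω, changes C M (G ω) + d ≤ d * 2 ^ C.numOther) ∧
    ∀ (n f' d' e : ℕ) (A : Circuit (Fin n × Fin n)), 2 ≤ n → 2 ≤ f' → 2 * d' ≤ f' →
      A.FanIn f' d' → ∃ B : Circuit (Fin n × Fin n), B.FanIn f' 1 ∧ B.numOther = 1 ∧
        B.size ≤ 2 * A.size + 10 * n ^ 4 ∧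
        ∀ G : SimpleGraph (Fin n), B.eval (graphInput G) = false ↔
          (Finset.univ.filter fun p : Fin n × Fin n => G.Adj p.1 p.2).card = e ∧
            A.eval (graphInput G) = false :=
  Pool.Agent.T9h35.CN.certificates_final

end Pool.Agent.Results.MP_a77cad_lc.WitnessLength
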